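import Pool.Agent.TH552.NB.PlaneR
import Pool.Agent.TH603.EL.Key

/-! Asymptotic independence in the plane for every `n ≥ 9`. -/

set_option autoImplicit false

namespace Pool.Agent.TH552.NB

open Pool.Agent.TH176.Nag Pool.Agent.TH880.NB

theorem PA_one {n : ℕ} (hn : 9 ≤ n) : PA n 0 1 :=
  PA_plane (fun h0 h1 h => Pool.Agent.TH603.EL.Emp_key h0 h1 h) hn

end Pool.Agent.TH552.NB
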