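import Pool.Agent.TH176.Nag.Defs

/-! The number of lattice points of the triangle `T_d(τ)` for irrational `τ` is the number
`(d + 1) (d + 2) / 2` of monomials of degree at most `d`. -/

set_option autoImplicit false

namespace Pool.Agent.TH552.NB

open Finset Pool.Agent.TH176.Nag

/-- the number of points in the row of size `m` -/
def rw3 (m : ℕ) : ℕ := if m = 0 then 1 else 3 * m

theorem sum_rw3 : ∀ d : ℕ, 2 * ∑ j ∈ range (d / 3 + 1), rw3 (d - 3 * j) = (d + 1) * (d + 2)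
  | 0 => by simp [rw3]
  | 1 => by simp [rw3]
  | 2 => by simp [rw3]
  | d + 3 => by
    have ih := sum_rw3 d
    have e : (d + 3) / 3 + 1 = (d / 3 + 1) + 1 := by omega
    rw [e, Finset.sum_range_succ', mul_add]
    have e2 : ∑ j ∈ range (d / 3 + 1), rw3 (d + 3 - 3 * (j + 1)) =
        ∑ j ∈ range (d / 3 + 1), rw3 (d - 3 * j) := by
      refine Finset.sum_congr rfl fun j _ => ?_
      congr 1
      omega
    rw [e2, ih]
    have e3 : rw3 (d + 3 - 3 * 0) = 3 * (d + 3) := by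
      unfold rw3
      rw [if_neg (by omega)]
      omega
    rw [e3]
    ring

theorem card_row {τ : ℝ} (hτ : Irrational τ) (m : ℕ) :
    (Finset.Icc ⌈-((m : ℝ) * (1 + τ))⌉ ⌊(m : ℝ) * (2 - τ)⌋).card = rw3 m := by
  rcases Nat.eq_zero_or_pos m with h | h
  · subst h
    simp [rw3]
  · have hm : rw3 m = 3 * m := by unfold rw3; rw [if_neg (by omega)]
    rw [hm, Int.card_Icc]
    have h1 : ⌈-((m : ℝ) * (1 + τ))⌉ = -(m : ℤ) - ⌊(m : ℝ) * τ⌋ := by
      have : -((m : ℝ) * (1 + τ)) = -((((m : ℤ) : ℝ)) + (m : ℝ) * τ) := by push_cast; ring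
      rw [this, Int.ceil_neg, Int.floor_intCast_add]
      ring
    have h2 : ⌊(m : ℝ) * (2 - τ)⌋ = 2 * (m : ℤ) - ⌈(m : ℝ) * τ⌉ := by
      have : (m : ℝ) * (2 - τ) = -((m : ℝ) * τ - ((2 * (m : ℤ) : ℤ) : ℝ)) := by push_cast; ring
      rw [this, Int.floor_neg, Int.ceil_sub_intCast]
      ring
    have h3 : ⌈(m : ℝ) * τ⌉ = ⌊(m : ℝ) * τ⌋ + 1 := by
      have hirr : Irrational ((m : ℝ) * τ) := hτ.natCast_mul (by omega)
      rw [Int.ceil_eq_iff]
      constructor
      · push_cast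
        have := Int.floor_le ((m : ℝ) * τ)
        have hne : ((⌊(m : ℝ) * τ⌋ : ℤ) : ℝ) ≠ (m : ℝ) * τ := fun h => hirr.ne_int _ h.symm
        have := lt_of_le_of_ne this hne
        linarith
      · push_cast
        exact (Int.lt_floor_add_one _).le
    rw [h1, h2, h3]
    omega

/-- the triangle as a finite set -/
theorem tri_finite {τ : ℝ} (hτ : Irrational τ) (d : ℕ) :
    ∃ T : Finset (ℤ × ℤ), (↑T : Set (ℤ × ℤ)) =
      Reg (-((d : ℝ) * (1 + τ))) (d * (2 - τ)) (3 * (1 + τ)) (3 * (2 - τ)) ∧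
      2 * T.card ≤ (d + 1) * (d + 2) := by
  classical
  let U : Finset (ℤ × ℤ) := (range (d / 3 + 1)).biUnion fun j =>
    (Finset.Icc ⌈-(((d - 3 * j : ℕ) : ℝ) * (1 + τ))⌉ ⌊((d - 3 * j : ℕ) : ℝ) * (2 - τ)⌋).image
      fun a => (a, (j : ℤ))
  have hsub : Reg (-((d : ℝ) * (1 + τ))) (d * (2 - τ)) (3 * (1 + τ)) (3 * (2 - τ)) ⊆
      (↑U : Set (ℤ × ℤ)) := by
    rintro ⟨a, b⟩ ⟨hb, hl, hr⟩
    simp only at hb hl hr
    obtain ⟨j, rfl⟩ := Int.eq_ofNat_of_zero_le hb
    have hl' : -(((d : ℝ) - 3 * j) * (1 + τ)) ≤ a := by push_cast at hl; linarith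
    have hr' : (a : ℝ) ≤ ((d : ℝ) - 3 * j) * (2 - τ) := by push_cast at hr; linarith
    have hj : 3 * j ≤ d := by
      have h1 : 0 ≤ ((d : ℝ) - 3 * j) * 3 := by linarith
      have h2 : (3 * j : ℝ) ≤ d := by linarith
      exact_mod_cast h2
    have hc : ((d - 3 * j : ℕ) : ℝ) = (d : ℝ) - 3 * j := by
      rw [Nat.cast_sub hj]; push_cast; ring
    rw [Finset.mem_coe, Finset.mem_biUnion]
    refine ⟨j, Finset.mem_range.2 (by omega), Finset.mem_image.2 ⟨a, ?_, rfl⟩⟩
    rw [Finset.mem_Icc, hc]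
    exact ⟨Int.ceil_le.2 hl', Int.le_floor.2 hr'⟩
  have hfin := (Finset.finite_toSet U).subset hsub
  refine ⟨hfin.toFinset, hfin.coe_toFinset, ?_⟩
  have h1 : hfin.toFinset.card ≤ U.card := by
    apply Finset.card_le_card
    intro m hm
    exact hsub (hfin.mem_toFinset.1 hm)
  have h2 : U.card ≤ ∑ j ∈ range (d / 3 + 1), rw3 (d - 3 * j) := by
    refine Finset.card_biUnion_le.trans (Finset.sum_le_sum fun j _ => ?_)
    refine Finset.card_image_le.trans ?_
    rw [card_row hτ]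
  have h3 := sum_rw3 d
  omega

/-- the monomials of degree at most `d` -/
theorem plane_finite (d : ℕ) : ∃ S : Finset (ℤ × ℤ), (↑S : Set (ℤ × ℤ)) =
    {m : ℤ × ℤ | 0 ≤ m.1 ∧ 0 ≤ m.2 ∧ m.1 + m.2 ≤ (d : ℤ)} ∧ 2 * S.card = (d + 1) * (d + 2) := by
  classical
  let S : Finset (ℤ × ℤ) := (range (d + 1)).biUnion fun b =>
    (range (d + 1 - b)).image fun a : ℕ => ((a : ℤ), (b : ℤ))
  refine ⟨S, ?_, ?_⟩
  · ext ⟨a, b⟩
    simp only [S, Finset.coe_biUnion, Finset.coe_range, Set.mem_Iio, Finset.coe_image,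
      Set.mem_iUnion, Set.mem_image, Prod.mk.injEq, exists_prop, Set.mem_ofPred_eq]
    constructor
    · rintro ⟨b', hb', a', ha', rfl, rfl⟩
      omega
    · rintro ⟨h1, h2, h3⟩
      exact ⟨b.toNat, by omega, a.toNat, by omega, by omega, by omega⟩
  · have h1 : S.card = ∑ b ∈ range (d + 1), (d + 1 - b) := by
      rw [Finset.card_biUnion]
      · refine Finset.sum_congr rfl fun b _ => ?_
        rw [Finset.card_image_of_injective, Finset.card_range]
        intro x y hxy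
        simpa using hxy
      · intro x _ y _ hxy
        show Disjoint _ _
        rw [Finset.disjoint_left]
        intro m hm hm'
        rw [Finset.mem_image] at hm hm'
        obtain ⟨a, -, rfl⟩ := hm
        obtain ⟨a', -, h⟩ := hm'
        apply hxy
        simpa using (congrArg Prod.snd h).symm
    rw [h1]
    clear h1
    induction d with
    | zero => simp
    | succ d ih =>
      rw [Finset.sum_range_succ']
      have e : ∑ b ∈ range (d + 1), (d + 1 + 1 - (b + 1)) = ∑ b ∈ range (d + 1), (d + 1 - b) :=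
        Finset.sum_congr rfl fun b _ => by omega
      rw [e, mul_add, ih]
      simp only [Nat.sub_zero]
      ring

end Pool.Agent.TH552.NB
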