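import Pool.Agent.TH552.NB.Simple
import Pool.Agent.TH552.NB.CountT
import Pool.Agent.TH880.NB.Cls

/-! The plane: from emptiness on the triangles `T_d(τ)` to asymptotic independence. -/

set_option autoImplicit false

namespace Pool.Agent.TH552.NB

open Finset Pool.Agent.TH176.Nag Pool.Agent.TH880.NB Pool.Agent.TH181.NagM

/-- the key lemma: emptiness for the triangle `T_d(τ)` implies emptiness for the plane -/
def KeyE : Prop := ∀ {ι : Type} {w : ι → ℕ} {d : ℕ} {τ : ℝ}, 0 < τ → τ < 1 →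
  Emp w (Reg (-((d : ℝ) * (1 + τ))) (d * (2 - τ)) (3 * (1 + τ)) (3 * (2 - τ))) →
  Emp w {m : ℤ × ℤ | 0 ≤ m.1 ∧ 0 ≤ m.2 ∧ m.1 + m.2 ≤ (d : ℤ)}

theorem Rk_plane (hkey : KeyE) {ι : Type} {w : ι → ℕ} {d N : ℕ} {τ : ℝ} (h0 : 0 < τ) (h1 : τ < 1)
    (hτ : Irrational τ)
    (h : Rk w (Reg (-((d : ℝ) * (1 + τ))) (d * (2 - τ)) (3 * (1 + τ)) (3 * (2 - τ))) N) :
    Rk w {m : ℤ × ℤ | 0 ≤ m.1 ∧ 0 ≤ m.2 ∧ m.1 + m.2 ≤ (d : ℤ)} N := by
  obtain ⟨T, hT, hTc⟩ := tri_finite hτ d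
  obtain ⟨S, hS, hSc⟩ := plane_finite d
  rw [← hT] at h
  rw [← hS]
  have hN : N ≤ T.card := by
    obtain ⟨T', h1, h2, -⟩ := h
    rw [← h2]
    exact Finset.card_le_card (by exact_mod_cast h1)
  have h2 : Emp (Sum.elim w (fun _ : Fin (S.card - N) => 1)) (↑T : Set (ℤ × ℤ)) :=
    Emp_add_simple (by omega) h
  rw [hT] at h2
  have h3 := hkey h0 h1 h2
  rw [← hS] at h3
  exact Rk_of_Emp_simple (by omega) h3

theorem PA_plane_of (hkey : KeyE) {n : ℕ} {τ : ℝ} (h0 : 0 < τ) (h1 : τ < 1)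
    (hτ : Irrational τ) (h : PA n (3 * (1 + τ)) (3 * (2 - τ))) : PA n 0 1 := by
  unfold PA at h ⊢
  rw [show (3 : ℝ) * (1 + τ) + 3 * (2 - τ) = 3 ^ 2 by ring, Real.sqrt_sq (by norm_num)] at h
  rw [zero_add, Real.sqrt_one, mul_one]
  intro η hη
  obtain ⟨s1, hs1⟩ := h η hη
  obtain ⟨s2, hs2⟩ := exists_large (η := η) (c := 3) hη
  refine ⟨max s1 s2, fun s hs α => ?_⟩
  have hs1' := hs1 s ((le_max_left _ _).trans hs)
  have hs2' := hs2 s ((le_max_right _ _).trans hs)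
  have hB : 0 ≤ (√(n : ℝ) + η) * s := by positivity
  have hB2 : 2 ≤ (√(n : ℝ) + η) * s := by
    have : 0 ≤ √(n : ℝ) * s := by positivity
    have e : (√(n : ℝ) + η) * s = √(n : ℝ) * s + η * s := by ring
    rw [e]; linarith
  obtain ⟨d, hd⟩ : ∃ d : ℕ, d = ⌊(√(n : ℝ) + η) * s - 1⌋₊ := ⟨_, rfl⟩
  have hd1 : (d : ℝ) ≤ (√(n : ℝ) + η) * s - 1 := by
    rw [hd]; exact Nat.floor_le (by linarith)
  have hd2 : (√(n : ℝ) + η) * s - 2 ≤ d := by
    have := (Nat.lt_floor_add_one ((√(n : ℝ) + η) * s - 1)).le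
    rw [← hd] at this
    linarith
  have h2 := (hs1' (-((d : ℝ) * (1 + τ)))).mono (S' := Reg (-((d : ℝ) * (1 + τ))) (d * (2 - τ))
    (3 * (1 + τ)) (3 * (2 - τ))) (Reg_mono le_rfl (by
      have e : -((d : ℝ) * (1 + τ)) + (√(n : ℝ) * 3 + η) * s =
        d * (2 - τ) - (3 * d - (√(n : ℝ) * 3 + η) * s) := by ring
      rw [e]
      have : (√(n : ℝ) * 3 + η) * s ≤ 3 * d := by
        have e2 : (√(n : ℝ) * 3 + η) * s = 3 * ((√(n : ℝ) + η) * s - 2) - 2 * (η * s - 3) := by ring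
        rw [e2]; linarith
      linarith))
  have h3 := Rk_plane hkey h0 h1 hτ h2
  refine h3.image 1 0 0 1 ⌈α⌉ 0 (by norm_num) ?_
  rintro ⟨a, b⟩ ⟨ha, hb, hab⟩
  simp only at ha hb hab
  have haR : (0 : ℝ) ≤ a := by exact_mod_cast ha
  have habR : (a : ℝ) + b ≤ d := by exact_mod_cast hab
  have h5 := (Int.ceil_lt_add_one α).le
  have h6 := Int.le_ceil α
  refine ⟨by simpa using hb, ?_, ?_⟩
  · simp only
    push_cast
    linarith
  · simp only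
    push_cast
    linarith

/-- the general end: from the real slopes to all numbers of points -/
theorem PA_end {n : ℕ} {δ : ℝ} (hn : δ ≤ n) (hδ : 0 < δ)
    {μ : ℝ} (k : ℤ) (hk : μ = √δ * √(n : ℝ) + k) : PA n μ (δ - μ) := by
  have hn1 : 1 ≤ n := by
    have : (0 : ℝ) < n := by linarith
    exact_mod_cast this
  have hcl := PA.closed hn1
  have hsδ : √δ * √δ = δ := Real.mul_self_sqrt hδ.le
  have hsn : √(n : ℝ) * √(n : ℝ) = n := Real.mul_self_sqrt (Nat.cast_nonneg n)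
  have h0δ : 0 < √δ := Real.sqrt_pos.2 hδ
  have hle : √δ ≤ √(n : ℝ) := Real.sqrt_le_sqrt hn
  have hδ' : δ ≤ √δ * √(n : ℝ) := by
    calc δ = √δ * √δ := hsδ.symm
      _ ≤ √δ * √(n : ℝ) := by gcongr
  have hn' : √δ * √(n : ℝ) ≤ n := by
    calc √δ * √(n : ℝ) ≤ √(n : ℝ) * √(n : ℝ) := by gcongr
      _ = n := hsn
  -- shear to `μ₀ = √δ √n - v`, `ν₀ = δ - μ₀`, with `v ≥ ν₀`
  obtain ⟨v, hv⟩ : ∃ v : ℤ, δ ≤ v := ⟨⌈δ⌉, Int.le_ceil δ⟩
  have base : PA n (√δ * √(n : ℝ)) (n - √δ * √(n : ℝ)) := by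
    unfold PA
    have e : √δ * √(n : ℝ) + (n - √δ * √(n : ℝ)) = n := by ring
    rw [e, hsn]
    exact AS.base n (by positivity) (by linarith) e
  have step : PA n (√δ * √(n : ℝ) - v) (δ - (√δ * √(n : ℝ) - v)) := by
    refine hcl.stepA 1 v isCoprime_one_left (by norm_num) (by push_cast; linarith [mul_pos h0δ (lt_of_lt_of_le h0δ hle)])
      (by push_cast; linarith) (by linarith) ?_
    have e1 : ((1 : ℤ) : ℝ) * (((1 : ℤ) : ℝ) * (√δ * √(n : ℝ) - v) + (v : ℝ)) = √δ * √(n : ℝ) := by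
      push_cast; ring
    have e2 : ((v : ℝ) - ((1 : ℤ) : ℝ) * (δ - (√δ * √(n : ℝ) - v))) *
        (((1 : ℤ) : ℝ) * (√δ * √(n : ℝ) - v) + (v : ℝ)) / (√δ * √(n : ℝ) - v +
          (δ - (√δ * √(n : ℝ) - v))) = n - √δ * √(n : ℝ) := by
      have e3 : √δ * √(n : ℝ) - v + (δ - (√δ * √(n : ℝ) - v)) = δ := by ring
      rw [e3, div_eq_iff hδ.ne']
      push_cast
      linear_combination (√(n : ℝ) * √(n : ℝ)) * hsδ + δ * hsn
    rw [e1, e2]
    exact base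
  refine hcl.shear (-k - v) ?_
  have e1 : μ + ((-k - v : ℤ) : ℝ) = √δ * √(n : ℝ) - v := by rw [hk]; push_cast; ring
  have e2 : δ - μ - ((-k - v : ℤ) : ℝ) = δ - (√δ * √(n : ℝ) - v) := by rw [hk]; push_cast; ring
  rw [e1, e2]
  exact step

/-- perfect squares -/
theorem PA_sq {t : ℕ} (ht : 1 ≤ t) : PA (t ^ 2) 0 1 := by
  have hn : 1 ≤ t ^ 2 := Nat.one_le_pow _ _ ht
  have htR : (1 : ℝ) ≤ t := by exact_mod_cast ht
  have h := (Rv.mul (n := 1) t ht (by linarith)).closed (PA.closed hn)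
  apply h
  unfold PA
  have e : √((t ^ 2 : ℕ) : ℝ) * √(0 + (t : ℝ) ^ 2 * 1) = ((t ^ 2 : ℕ) : ℝ) := by
    have e1 : (0 : ℝ) + (t : ℝ) ^ 2 * 1 = ((t ^ 2 : ℕ) : ℝ) := by push_cast; ring
    rw [e1]
    exact Real.mul_self_sqrt (Nat.cast_nonneg _)
  rw [e]
  exact AS.base _ le_rfl (by positivity) (by push_cast; ring)

/-- **the plane**: asymptotic independence for every number `n ≥ 9` of points -/
theorem PA_plane (hkey : KeyE) {n : ℕ} (hn : 9 ≤ n) : PA n 0 1 := by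
  by_cases hsq : IsSquare n
  · obtain ⟨t, rfl⟩ := hsq
    have ht : 1 ≤ t := by
      rcases Nat.eq_zero_or_pos t with h | h
      · subst h; omega
      · exact h
    rw [← sq]
    exact PA_sq ht
  · have hirr : Irrational (√(n : ℝ)) := by
      rw [irrational_sqrt_natCast_iff]
      exact hsq
    -- `τ = frac √n`
    set τ : ℝ := Int.fract √(n : ℝ) with hτ
    have hτ' : τ = √(n : ℝ) - (⌊√(n : ℝ)⌋ : ℤ) := rfl
    have hirrτ : Irrational τ := by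
      rw [hτ']
      exact hirr.sub_intCast _
    have h0 : 0 < τ := lt_of_le_of_ne (Int.fract_nonneg _) (fun h => by
      apply hirrτ
      exact ⟨0, by rw [← h]; simp⟩)
    have h1 : τ < 1 := Int.fract_lt_one _
    refine PA_plane_of hkey h0 h1 hirrτ ?_
    have h2 := PA_end (n := n) (δ := 9) (by exact_mod_cast hn) (by norm_num)
      (μ := 3 * (1 + τ)) (3 - 3 * ⌊√(n : ℝ)⌋) (by
        have e : √(9 : ℝ) = 3 := by
          rw [show (9 : ℝ) = 3 ^ 2 by norm_num]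
          exact Real.sqrt_sq (by norm_num)
        rw [e, hτ']
        push_cast
        ring)
    rwa [show (9 : ℝ) - 3 * (1 + τ) = 3 * (2 - τ) by ring] at h2

end Pool.Agent.TH552.NB
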