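import Pool.Agent.TH880.NB.Rk

/-! Simple points: the rank of the conditions of multiplicities `w` on the span of `S` is at least
`N` if and only if `#S - N` further general simple points leave no Laurent polynomial. -/

set_option autoImplicit false

namespace Pool.Agent.TH552.NB

open Finset Pool.Agent.TH176.Nag Pool.Agent.TH880.NB

section one
variable {K : Type} [Field K]

/-- evaluation at a point of the torus -/
noncomputable def ev1 (x y : K) : ((ℤ × ℤ) →₀ K) →ₗ[K] K :=
  Finsupp.linearCombination K fun m : ℤ × ℤ => x ^ m.1 * y ^ m.2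

theorem ev1_apply (x y : K) (f : (ℤ × ℤ) →₀ K) :
    ev1 x y f = f.sum fun m c => c * (x ^ m.1 * y ^ m.2) := by
  unfold ev1
  rw [Finsupp.linearCombination_apply]
  rfl

theorem LM_one {f : (ℤ × ℤ) →₀ K} {x y : K} : LM f x y 1 ↔ ev1 x y f = 0 := by
  have h : ∀ a b : ℕ, a + b < 1 → pr f x y (fun u : K × K => u.1 ^ a * u.2 ^ b) = ev1 x y f := by
    intro a b hab
    have ha : a = 0 := by omega
    have hb : b = 0 := by omega
    subst ha; subst hb
    rw [ev1_apply]
    unfold pr
    refine Finsupp.sum_congr fun m _ => ?_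
    simp
  constructor
  · intro hf
    rw [← h 0 0 (by omega)]
    exact hf _ (mem_PF_mono (by omega))
  · intro hf
    apply LM_of_mono
    intro a b hab
    rw [h a b hab, hf]

/-- the characters of the torus are linearly independent -/
theorem exists_ev1_ne [CharZero K] {f : (ℤ × ℤ) →₀ K} (hf : f ≠ 0) :
    ∃ x y : K, x ≠ 0 ∧ y ≠ 0 ∧ ev1 x y f ≠ 0 := by
  classical
  by_contra hcon
  push Not at hcon
  let χ : ℤ × ℤ → (Kˣ × Kˣ →* K) := fun m =>
    { toFun := fun u => ((u.1 : K)) ^ m.1 * ((u.2 : K)) ^ m.2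
      map_one' := by simp
      map_mul' := fun u v => by
        simp only [Prod.fst_mul, Prod.snd_mul, Units.val_mul, mul_zpow]
        ring }
  have two_inj : ∀ a b : ℤ, ((2 : K)) ^ a = 2 ^ b → a = b := by
    intro a b hab
    have h1 : (((2 : ℚ) ^ a : ℚ) : K) = (((2 : ℚ) ^ b : ℚ) : K) := by
      push_cast
      exact hab
    have h2 : (2 : ℚ) ^ a = 2 ^ b := by exact_mod_cast h1
    exact zpow_right_injective₀ (by norm_num) (by norm_num) h2
  have hχ : Function.Injective χ := by
    intro m m' h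
    have h1 := DFunLike.congr_fun h (Units.mk0 (2 : K) two_ne_zero, 1)
    have h2 := DFunLike.congr_fun h (1, Units.mk0 (2 : K) two_ne_zero)
    simp only [χ, MonoidHom.coe_mk, OneHom.coe_mk, Units.val_mk0, Units.val_one, one_zpow,
      mul_one, one_mul] at h1 h2
    exact Prod.ext (two_inj _ _ h1) (two_inj _ _ h2)
  have hli := (linearIndependent_monoidHom (Kˣ × Kˣ) K).comp χ hχ
  apply hf
  refine (linearIndependent_iff.1 hli) f ?_
  funext u
  have h1 := hcon u.1 u.2 u.1.ne_zero u.2.ne_zero
  rw [ev1_apply] at h1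
  rw [Finsupp.linearCombination_apply, Finsupp.sum, Finset.sum_apply, Pi.zero_apply, ← h1]
  refine Finset.sum_congr rfl fun m _ => ?_
  rfl

/-- a space of dimension at most `k` is killed by `k` points -/
theorem exists_points [CharZero K] : ∀ (k : ℕ) (W : Submodule K ((ℤ × ℤ) →₀ K)),
    Module.Finite K W → Module.finrank K W ≤ k →
    ∃ a b : Fin k → K, (∀ l, a l ≠ 0) ∧ (∀ l, b l ≠ 0) ∧
      ∀ f ∈ W, (∀ l, ev1 (a l) (b l) f = 0) → f = 0 := by
  intro k
  induction k with
  | zero =>
    intro W hfin hW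
    refine ⟨fun _ => 1, fun _ => 1, fun _ => one_ne_zero, fun _ => one_ne_zero, fun f hf _ => ?_⟩
    have h1 : W = ⊥ := by
      rw [← Submodule.finrank_eq_zero (R := K)]
      omega
    rw [h1] at hf
    exact hf
  | succ k ih =>
    intro W hfin hW
    by_cases h0 : W = ⊥
    · refine ⟨fun _ => 1, fun _ => 1, fun _ => one_ne_zero, fun _ => one_ne_zero, fun f hf _ => ?_⟩
      rw [h0] at hf
      exact hf
    · obtain ⟨f0, hf0, hne⟩ := Submodule.exists_mem_ne_zero_of_ne_bot h0
      obtain ⟨x, y, hx, hy, hev⟩ := exists_ev1_ne hne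
      let W' : Submodule K ((ℤ × ℤ) →₀ K) := W ⊓ LinearMap.ker (ev1 x y)
      have hlt : W' < W := by
        refine lt_of_le_of_ne inf_le_left fun h => ?_
        have h1 : f0 ∈ W' := by rw [h]; exact hf0
        exact hev (LinearMap.mem_ker.1 h1.2)
      have hfin' : Module.Finite K W' :=
        Submodule.finiteDimensional_of_le (inf_le_left : W' ≤ W)
      have hrk := Submodule.finrank_lt_finrank_of_lt hlt
      obtain ⟨a, b, ha, hb, hab⟩ := ih W' hfin' (by omega)
      refine ⟨Fin.cons x a, Fin.cons y b, ?_, ?_, fun f hf h => ?_⟩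
      · intro l
        refine Fin.cases ?_ (fun l => ?_) l
        · simpa using hx
        · simpa using ha l
      · intro l
        refine Fin.cases ?_ (fun l => ?_) l
        · simpa using hy
        · simpa using hb l
      · refine hab f ⟨hf, ?_⟩ fun l => ?_
        · have := h 0
          simpa using this
        · have := h l.succ
          simpa using this

end one

variable {ι : Type} {w : ι → ℕ}

theorem finrank_supported {K : Type} [Field K] (S : Finset (ℤ × ℤ)) :
    Module.finrank K (Finsupp.supported K K (↑S : Set (ℤ × ℤ))) = S.card := by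
  have E := Finsupp.supportedEquivFinsupp (M := K) (R := K) (↑S : Set (ℤ × ℤ))
  rw [LinearEquiv.finrank_eq E, Module.finrank_finsupp_self]
  simp

instance finite_supported {K : Type} [Field K] (S : Finset (ℤ × ℤ)) :
    Module.Finite K (Finsupp.supported K K (↑S : Set (ℤ × ℤ))) :=
  Module.Finite.equiv (Finsupp.supportedEquivFinsupp (M := K) (R := K) (↑S : Set (ℤ × ℤ))).symm

/-- adding simple points -/
theorem Emp_add_simple {N k : ℕ} {S : Finset (ℤ × ℤ)} (hS : S.card ≤ N + k)
    (h : Rk w (↑S : Set (ℤ × ℤ)) N) :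
    Emp (Sum.elim w (fun _ : Fin k => 1)) (↑S : Set (ℤ × ℤ)) := by
  classical
  obtain ⟨T, hTS, hTN, K, _, _, x, y, hx, hy, hT⟩ := h
  let V : Submodule K ((ℤ × ℤ) →₀ K) := Finsupp.supported K K (↑S : Set (ℤ × ℤ))
  let VT : Submodule K ((ℤ × ℤ) →₀ K) := Finsupp.supported K K (↑T : Set (ℤ × ℤ))
  let W : Submodule K ((ℤ × ℤ) →₀ K) := V ⊓ Kr w x y
  have hVfin : Module.Finite K V := finite_supported S
  have hVTfin : Module.Finite K VT := finite_supported T
  have hWfin : Module.Finite K W := Submodule.finiteDimensional_of_le (inf_le_left : W ≤ V)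
  have hVT : VT ≤ V := Finsupp.supported_mono hTS
  have hdis : VT ⊓ W = ⊥ := by
    rw [eq_bot_iff]
    rintro f ⟨hf1, hf2⟩
    exact hT f ((Finsupp.mem_supported _ _).1 hf1) (mem_Kr.1 hf2.2)
  have hsum := Submodule.finrank_sup_add_finrank_inf_eq VT W
  rw [hdis, finrank_bot, add_zero, finrank_supported, hTN] at hsum
  have hle : Module.finrank K (VT ⊔ W : Submodule K ((ℤ × ℤ) →₀ K)) ≤ Module.finrank K V :=
    Submodule.finrank_mono (sup_le hVT inf_le_left)
  have hV : Module.finrank K V = S.card := finrank_supported S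
  have hW : Module.finrank K W ≤ k := by omega
  obtain ⟨a, b, ha, hb, hab⟩ := exists_points k W hWfin hW
  refine ⟨K, inferInstance, inferInstance, Sum.elim x a, Sum.elim y b, ?_, ?_, ?_⟩
  · rintro (i | l)
    · exact hx i
    · exact ha l
  · rintro (i | l)
    · exact hy i
    · exact hb l
  · intro f hf hL
    refine hab f ⟨(Finsupp.mem_supported _ _).2 hf, mem_Kr.2 fun i => hL (Sum.inl i)⟩ fun l => ?_
    exact LM_one.1 (hL (Sum.inr l))

/-- vectors of `V` independent modulo `U` -/
theorem exists_indep {K V0 : Type} [Field K] [AddCommGroup V0] [Module K V0]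
    (V U : Submodule K V0) (hVfin : Module.Finite K V) {N k : ℕ}
    (hW : Module.finrank K (V ⊓ U : Submodule K V0) ≤ k) (h : N + k ≤ Module.finrank K V) :
    ∃ v : Fin N → V0, (∀ j, v j ∈ V) ∧ ∀ c : Fin N → K, ∑ j, c j • v j ∈ U → c = 0 := by
  let W : Submodule K V0 := V ⊓ U
  have hWfin : Module.Finite K W := Submodule.finiteDimensional_of_le (inf_le_left : W ≤ V)
  obtain ⟨C, hC⟩ := Submodule.exists_isCompl W
  let C' : Submodule K V0 := V ⊓ C
  have hC'fin : Module.Finite K C' := Submodule.finiteDimensional_of_le (inf_le_left : C' ≤ V)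
  have hdis : W ⊓ C' = ⊥ := by
    rw [eq_bot_iff]
    rintro f ⟨hf1, hf2⟩
    have := hC.disjoint
    rw [Submodule.disjoint_def] at this
    exact this _ hf1 hf2.2
  have hsup : W ⊔ C' = V := by
    have h1 : W ≤ V := inf_le_left
    have h2 : W ⊔ (V ⊓ C) = V ⊓ (W ⊔ C) := by
      rw [inf_comm V C, ← sup_inf_assoc_of_le C h1, inf_comm]
    show W ⊔ (V ⊓ C) = V
    rw [h2, hC.sup_eq_top, inf_top_eq]
  have hsum := Submodule.finrank_sup_add_finrank_inf_eq W C'
  rw [inf_comm, inf_comm] at hsum
  rw [hdis, finrank_bot, add_zero, hsup] at hsum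
  have hWk : Module.finrank K W ≤ k := hW
  have hCrk : N ≤ Module.finrank K C' := by omega
  let bs := Module.finBasis K C'
  refine ⟨fun j => (bs (Fin.castLE hCrk j) : V0), fun j => (bs (Fin.castLE hCrk j)).2.1,
    fun c hc => ?_⟩
  let u : C' := ∑ j, c j • bs (Fin.castLE hCrk j)
  have hu : (u : V0) = ∑ j, c j • (bs (Fin.castLE hCrk j) : V0) := by
    simp only [u]
    push_cast
    rfl
  have h1 : (u : V0) ∈ W := ⟨u.2.1, by rw [hu]; exact hc⟩
  have h2 : (u : V0) ∈ W ⊓ C' := ⟨h1, u.2⟩
  rw [hdis] at h2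
  have h3 : u = 0 := Subtype.ext ((Submodule.mem_bot K).1 h2)
  have h4 : LinearIndependent K fun j : Fin N => bs (Fin.castLE hCrk j) :=
    bs.linearIndependent.comp _ (Fin.castLE_injective hCrk)
  rw [Fintype.linearIndependent_iff] at h4
  funext j
  exact h4 c h3 j

/-- removing simple points -/
theorem Rk_of_Emp_simple {N k : ℕ} {S : Finset (ℤ × ℤ)} (hS : N + k ≤ S.card)
    (h : Emp (Sum.elim w (fun _ : Fin k => 1)) (↑S : Set (ℤ × ℤ))) :
    Rk w (↑S : Set (ℤ × ℤ)) N := by
  classical
  obtain ⟨K, _, _, x, y, hx, hy, hE⟩ := h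
  let V : Submodule K ((ℤ × ℤ) →₀ K) := Finsupp.supported K K (↑S : Set (ℤ × ℤ))
  have hVfin : Module.Finite K V := finite_supported S
  have hV : Module.finrank K V = S.card := finrank_supported S
  let X : ι → K := fun i => x (Sum.inl i)
  let Y : ι → K := fun i => y (Sum.inl i)
  let W : Submodule K ((ℤ × ℤ) →₀ K) := V ⊓ Kr w X Y
  have hWfin : Module.Finite K W := Submodule.finiteDimensional_of_le (inf_le_left : W ≤ V)
  let e : W →ₗ[K] (Fin k → K) := LinearMap.pi fun l =>
    (ev1 (x (Sum.inr l)) (y (Sum.inr l))).comp W.subtype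
  have he : Function.Injective e := by
    rw [injective_iff_map_eq_zero]
    intro f hf
    have h1 : (f : (ℤ × ℤ) →₀ K) = 0 := by
      refine hE _ ((Finsupp.mem_supported _ _).1 f.2.1) ?_
      rintro (i | l)
      · exact mem_Kr.1 f.2.2 i
      · exact LM_one.2 (congrFun hf l)
    exact Subtype.ext h1
  have hW : Module.finrank K W ≤ k := by
    have := LinearMap.finrank_le_finrank_of_injective he
    simpa using this
  obtain ⟨v, hvV, hv⟩ := exists_indep V (Kr w X Y) hVfin (N := N) (k := k) hW (by omega)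
  have := Rk_of_vectors (w := w) (fun i => hx (Sum.inl i)) (fun i => hy (Sum.inl i))
    (S := (↑S : Set (ℤ × ℤ))) v (fun j => (Finsupp.mem_supported _ _).1 (hvV j))
    (fun c hc => hv c (mem_Kr.2 hc))
  simpa using this

end Pool.Agent.TH552.NB
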